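import Pool.Agent.H27.L1.H34.GA.Defs

/-!
Targets of the board ga (page H34_GA.md).
-/

namespace Pool.Agent.H27.L1.H34.GA

open MeasureTheory Pool.Agent.H27.L1.H34.GM Pool.Agent.H27.L1.H34.GZ Pool.Agent.H27.L1.H34.GU

/-! ### group A: the operators -/

/-- the dilates of a test function -/
def T_TGD : Prop := ∀ (m : ℕ), 1 ≤ m → ∀ (k : Mat m → ℂ) (r : ℝ), Tg m k → 0 < r →
  Tg m (fun z => k (r⁻¹ • z)) ∧ ∀ (N : ℕ) [NeZero N] (F : Mat m → VN m N → ℂ),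
    Rr (fun z => k (r⁻¹ • z)) 1 F = Rr k r F

/-- convolution preserves the Hecke eigenfunctions -/
def T_RRA : Prop := ∀ (m N : ℕ) [NeZero N] (T : ℕ → Finset (ZM m)) (D : Set (V m)),
  SysZ m N T D → ∀ (F : Mat m → VN m N → ℂ) (lam : ℕ → ℂ), HecA m N T F lam →
  ∀ k : Mat m → ℂ, Tg m k → HecA m N T (fun g x => Rr k 1 F g x) lam

/-- one double coset -/
def T_EZA : Prop := ∀ (m N : ℕ) [NeZero N] (T : ℕ → Finset (ZM m)) (D : Set (V m)),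
  SysZ m N T D → ∀ (F : Mat m → VN m N → ℂ) (lam : ℕ → ℂ), HecA m N T F lam →
  ∀ Φ : Mat m → ℂ, Tg m Φ → ∀ (ρ g : Mat m) (r : ℝ) (y : VN m N), ρ.det ≠ 0 → g.det ≠ 0 →
    0 < r →
    IntegrableOn (fun z : V m => Φ (kk r (mt z) ρ g) * F (mt z) y) (Shell m) (hm m) ∧
    ∫ z in Shell m, Φ (kk r (mt z) ρ g) * F (mt z) y ∂(hm m) =
      Rr Φ (r * (aN ρ)⁻¹) F (ρ * g) y

/-- the operator `A_r` -/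
def T_EIA : Prop := ∀ (m N : ℕ) [NeZero N] (T : ℕ → Finset (ZM m)) (D : Set (V m)),
  SysZ m N T D → ∀ (F : Mat m → VN m N → ℂ) (lam : ℕ → ℂ), HecA m N T F lam →
  ∀ Φ : Mat m → ℂ, Tg m Φ → ∀ (g : Mat m) (r : ℝ) (x : VN m N), g.det ≠ 0 → 0 < r →
    opAu N Φ r D F g x = thA m (fun r' => Rr Φ r' F g x) lam r

/-- the operator `opCu` -/
def T_OCA : Prop := ∀ (m N : ℕ) [NeZero N] (T : ℕ → Finset (ZM m)) (D : Set (V m)),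
  SysZ m N T D → ∀ (F : Mat m → VN m N → ℂ) (lam : ℕ → ℂ), HecA m N T F lam →
  ∀ Φ : Mat m → ℂ, Tg m Φ → ∀ (y : ℝ) (g : Mat m) (x : VN m N), g.det ≠ 0 →
    opCu N Φ y D F g x = DF m 1 lam y * Rr Φ 1 F g x

/-- size of the eigenvalues -/
def T_LMA : Prop := ∀ (m N : ℕ) [NeZero N] (T : ℕ → Finset (ZM m)) (D : Set (V m)),
  SysZ m N T D → ∀ (F : Mat m → VN m N → ℂ) (lam : ℕ → ℂ), HecA m N T F lam → NZ F →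
    ∃ C : ℝ, 0 ≤ C ∧ ∀ n : ℕ, 1 ≤ n →
      ‖(n : ℂ) ^ (((m : ℂ) - 1) / 2) * lam n‖ ≤ C * (n : ℝ) ^ m

/-- the norm of the convolution operators -/
def T_RRN : Prop := ∀ (m N : ℕ) [NeZero N] (T : ℕ → Finset (ZM m)) (D : Set (V m)),
  SysZ m N T D → ∀ (F : Mat m → VN m N → ℂ) (lam : ℕ → ℂ), HecA m N T F lam →
  ∀ k : Mat m → ℂ, Tg m k → ∀ r : ℝ, 0 < r →
    ∑ x, ∫⁻ z in D, ENNReal.ofReal (‖Rr k r F (mt z) x‖ ^ 2) ∂(hm m) ≤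
      (L1 k r) ^ 2 * ∑ x, ∫⁻ z in D, ENNReal.ofReal (‖F (mt z) x‖ ^ 2) ∂(hm m)

/-! ### group B: bump functions near 1, the large sieve -/

/-- the bump functions -/
def T_BIA : Prop := ∀ (m : ℕ) (χ : ℝ → ℝ), 1 ≤ m → Prof χ → ∃ C : ℝ, 1 ≤ C ∧
  ∀ δ : ℝ, 0 < δ → δ ≤ 1 / 2 → TgS m (bi m χ δ) ∧ ∀ z : Mat m,
    ‖bi m χ δ z‖ ≤ 1 ∧ bi m χ δ z = (‖bi m χ δ z‖ : ℂ) ∧
    (bi m χ δ z ≠ 0 → sz z ≤ 2 ∧ C⁻¹ ≤ |z.det| ∧ sz (z - 1) ≤ δ ∧ sz (z⁻¹ - 1) ≤ C * δ) ∧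
    (sz (z - 1) ≤ δ / (2 * m) → bi m χ δ z = 1)

/-- the mass of the bump functions -/
def T_TBA : Prop := ∀ (m : ℕ) (χ : ℝ → ℝ), 1 ≤ m → Prof χ → ∃ (c C : ℝ) (A : ℕ), 0 < c ∧
  0 < C ∧ ∀ δ : ℝ, 0 < δ → δ ≤ 1 / 2 → c * δ ^ A ≤ tb m χ δ ∧ tb m χ δ ≤ C ∧
    uu (bi m χ δ) (fun _ => 1) 1 = (tb m χ δ : ℂ) ∧ L1 (bi m χ δ) 1 = ENNReal.ofReal (tb m χ δ)

/-- the bump functions under small changes of the variable -/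
def T_LPI : Prop := ∀ (m : ℕ) (χ : ℝ → ℝ) (B : ℝ), 1 ≤ m → Prof χ → 0 < B → ∃ C : ℝ, 1 ≤ C ∧
  ∀ δ : ℝ, 0 < δ → δ ≤ 1 / 2 → ∀ (z c : Mat m) (τ : ℝ), c.det = 1 → 0 ≤ τ → τ ≤ 1 →
  sz (c - 1) ≤ B * τ →
    ‖bi m χ δ z - bi m χ δ (z * c)‖ ≤ C * δ⁻¹ * τ ∧
    (bi m χ δ z ≠ 0 ∨ bi m χ δ (z * c) ≠ 0 → sz z ≤ C ∧ C⁻¹ ≤ |z.det|)

/-- approximation of `F` by the convolution with a bump function -/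
def T_APR : Prop := ∀ (m : ℕ) (χ : ℝ → ℝ), 1 ≤ m → Prof χ → ∃ c : ℝ, 0 < c ∧
  ∀ (N : ℕ) [NeZero N] (T : ℕ → Finset (ZM m)) (D : Set (V m)), SysZ m N T D →
  ∀ (F : Mat m → VN m N → ℂ) (lam : ℕ → ℂ), HecA m N T F lam → nU D F = 1 →
  ∀ P δ : ℝ, Lip D F P → 0 ≤ P → 0 < δ → δ ≤ 1 / 2 → δ * (1 + P) ≤ c →
    ∑ x, ∫⁻ z in D, ENNReal.ofReal (‖Rr (bi m χ δ) 1 F (mt z) x - tb m χ δ * F (mt z) x‖ ^ 2)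
      ∂(hm m) ≤ ENNReal.ofReal ((tb m χ δ / 10) ^ 2)

/-- the convolution of a cusp form is small where a gap is large -/
def T_OSA : Prop := ∀ (m : ℕ) (χ : ℝ → ℝ), 1 ≤ m → Prof χ → ∃ (C : ℝ) (A : ℕ),
  1 ≤ C ∧ ∀ (N : ℕ) [NeZero N] (T : ℕ → Finset (ZM m)) (F : Mat m → VN m N → ℂ) (lam : ℕ → ℂ),
  1 ≤ N → CusB m N T F lam → ∀ δ : ℝ, 0 < δ → δ ≤ 1 / 2 →
  ∀ (b n : Mat m) (a : Fin m → ℝ) (k : Mat m), Sgl b n a k →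
  ∀ i j : Fin m, (i : ℕ) + 1 = j → (N : ℝ) * a i ≤ a j → ∀ x : VN m N,
    ENNReal.ofReal ‖Rr (bi m χ δ) 1 F b x‖ ≤ ENNReal.ofReal (C * δ⁻¹ ^ A * (N * a i / a j)) *
      ∫⁻ z in Zc m C, ENNReal.ofReal ‖F (b * (mt z)⁻¹) x‖ ∂(hm m)

/-- the mass in `DY` -/
def T_MSA : Prop := ∀ (m : ℕ) (χ : ℝ → ℝ), 1 ≤ m → Prof χ → ∃ (c C : ℝ) (A : ℕ), 0 < c ∧
  1 ≤ C ∧ ∀ (N : ℕ) [NeZero N] (T : ℕ → Finset (ZM m)) (D : Set (V m)), SysZ m N T D →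
  ∀ (F : Mat m → VN m N → ℂ) (lam : ℕ → ℂ), CusB m N T F lam →
  nU D F = 1 → ∀ P δ : ℝ, Lip D F P → 0 ≤ P → 0 < δ → δ ≤ 1 / 2 → δ * (1 + P) ≤ c →
  ∀ Y : ℝ, C * N * δ⁻¹ ^ A ≤ Y →
    ENNReal.ofReal (c * δ ^ A) ≤ ∑ x, ∫⁻ z in DY D Y, ENNReal.ofReal
      (‖Rr (bi m χ δ) 1 (Rr (bi m χ δ) 1 F) (mt z) x‖ ^ 2) ∂(hm m)

open Classical in
/-- the operator as an integral operator, and its majorant -/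
def T_CKI : Prop := ∀ (m N : ℕ) [NeZero N] (χ : ℝ → ℝ) (δ : ℝ), 1 ≤ m → 1 ≤ N → Prof χ →
  0 < δ → δ ≤ 1 / 2 → ∀ y : ℝ,
    (∀ (g h : Mat m) (x w : VN m N),
      ENNReal.ofReal ‖Cu (bi m χ δ) y g x h w‖ ≤ Pu y g x h w) ∧
    ∀ (F : VN m N → ℂ), (∀ x, ¬ Pr x → F x = 0) → ∀ (g h : Mat m) (x : VN m N),
      g.det ≠ 0 → h.det ≠ 0 →
      ∑' α : ZM m, (if y / 2 < (α.det.natAbs : ℝ) ∧ (α.det.natAbs : ℝ) ≤ y then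
        bi m χ δ (kk (aN (cR α)) h (cR α) g) * F (ac N α x) else 0) =
      ∑ w : VN m N, Cu (bi m χ δ) y g x h w * F w

/-- measurability of the kernels -/
def T_MKI : Prop := ∀ (m N : ℕ) (y : ℝ) (x w : VN m N), 1 ≤ m →
  ∀ Φ : Mat m → ℂ, Tg m Φ →
    Measurable (fun p : V m × V m => Cu Φ y (mt p.1) x (mt p.2) w)

/-- the Hilbert-Schmidt bound for an orthonormal family, outer variable in a subset -/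
def T_HSA : Prop := ∀ (m N : ℕ) [NeZero N] (T : ℕ → Finset (ZM m)) (D : Set (V m)),
  SysZ m N T D → ∀ (ι : Type) [Fintype ι] [DecidableEq ι] (F : ι → Mat m → VN m N → ℂ)
    (lam : ι → ℕ → ℂ), (∀ i, HecA m N T (F i) (lam i)) →
  Orthn D F → ∀ (χ : ℝ → ℝ) (δ : ℝ), Prof χ → 0 < δ → δ ≤ 1 / 2 → ∀ (y : ℝ) (S : Set (V m)),
  S ⊆ D → MeasurableSet S →
    ∑ i, ∑ x, ∫⁻ g in S, ENNReal.ofReal (‖opCu N (bi m χ δ) y D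
      (opCu N (bi m χ δ) y D (F i)) (mt g) x‖ ^ 2) ∂(hm m) ≤
      ∫⁻ g in S, Eu N D y (mt g) ∂(hm m)

/-- the fourth moment is bounded by the energy -/
def T_D4A : Prop := ∀ (m : ℕ) (χ : ℝ → ℝ), 1 ≤ m → Prof χ → ∃ (c C : ℝ) (A : ℕ), 0 < c ∧
  1 ≤ C ∧ ∀ (N : ℕ) [NeZero N] (T : ℕ → Finset (ZM m)) (D : Set (V m)), SysZ m N T D →
  ∀ (ι : Type) [Fintype ι] [DecidableEq ι] (F : ι → Mat m → VN m N → ℂ)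
    (lam : ι → ℕ → ℂ) (P : ι → ℝ),
  (∀ i, CusB m N T (F i) (lam i) ∧ Lip D (F i) (P i) ∧ 0 ≤ P i) →
  Orthn D F → ∀ δ : ℝ, 0 < δ → δ ≤ 1 / 2 → (∀ i, δ * (1 + P i) ≤ c) →
  ∀ y Y : ℝ, 1 ≤ y → C * N * δ⁻¹ ^ A ≤ Y →
    ENNReal.ofReal (∑ i, ‖DF m 1 (lam i) y‖ ^ 4) ≤ ENNReal.ofReal (C * δ⁻¹ ^ A) *
      ∫⁻ g in DY D Y, Eu N D y (mt g) ∂(hm m)

/-- the fourth moment of the sums of the eigenvalues -/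
def T_D4B : Prop := ∀ (m : ℕ) (χ : ℝ → ℝ), 1 ≤ m → Prof χ → ∀ ε : ℝ, 0 < ε →
  ∃ (c C : ℝ) (A K : ℕ), 0 < c ∧ 0 < C ∧
  ∀ (N : ℕ) [NeZero N] (T : ℕ → Finset (ZM m)) (D : Set (V m)), SysZ m N T D →
  ∀ (ι : Type) [Fintype ι] [DecidableEq ι] (F : ι → Mat m → VN m N → ℂ)
    (lam : ι → ℕ → ℂ) (P : ι → ℝ),
  (∀ i, CusB m N T (F i) (lam i) ∧ Lip D (F i) (P i) ∧ 0 ≤ P i) →
  Orthn D F → ∀ δ : ℝ, 0 < δ → δ ≤ 1 / 2 → (∀ i, δ * (1 + P i) ≤ c) →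
  ∀ y : ℝ, 1 ≤ y →
    ∑ i, ‖DF m 1 (lam i) y‖ ^ 4 ≤ (C * δ⁻¹ ^ A * (N : ℝ) ^ ((m : ℝ) + ε) *
      (1 + Real.log (N * δ⁻¹)) ^ K) * (1 + Real.log y) ^ K * y ^ (2 * m) *
        (1 + y ^ 2 / N) ^ m

/-! ### group C: the functional equation -/

/-- convolution preserves the cusp forms -/
def T_RRC : Prop := ∀ (m N : ℕ) [NeZero N] (T : ℕ → Finset (ZM m)) (D : Set (V m)),
  SysZ m N T D → ∀ (F : Mat m → VN m N → ℂ) (lam : ℕ → ℂ), CusB m N T F lam →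
  ∀ k : Mat m → ℂ, Tg m k → CusB m N T (fun g x => Rr k 1 F g x) lam

/-- the convolution of a cusp form decays -/
def T_DCA : Prop := ∀ (m N : ℕ) [NeZero N] (T : ℕ → Finset (ZM m)) (D : Set (V m)),
  SysZ m N T D → ∀ (F : Mat m → VN m N → ℂ) (lam : ℕ → ℂ), CusB m N T F lam →
  ∀ (χ : ℝ → ℝ) (δ : ℝ), Prof χ → 0 < δ → δ ≤ 1 / 2 → Dcy (fun g x => Rr (bi m χ δ) 1 F g x)

/-- the convolutions with small bump functions do not vanish -/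
def T_NZR : Prop := ∀ (m N : ℕ) [NeZero N] (T : ℕ → Finset (ZM m)) (D : Set (V m)),
  SysZ m N T D → ∀ (F : Mat m → VN m N → ℂ) (lam : ℕ → ℂ), HecA m N T F lam → NZ F →
  ∀ χ : ℝ → ℝ, Prof χ → ∃ δ : ℝ, 0 < δ ∧ δ ≤ 1 / 2 ∧ NZ (fun g x => Rr (bi m χ δ) 1 F g x)

/-- the norm of a form -/
def T_NZU : Prop := ∀ (m N : ℕ) [NeZero N] (T : ℕ → Finset (ZM m)) (D : Set (V m)),
  SysZ m N T D → ∀ (F : Mat m → VN m N → ℂ) (lam : ℕ → ℂ), HecA m N T F lam →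
  (NZ F ↔ 0 < nU D F)

/-- decaying functions against the skewness -/
def T_FTA : Prop := ∀ (m N : ℕ) [NeZero N] (T : ℕ → Finset (ZM m)) (D : Set (V m)),
  SysZ m N T D → ∀ (F : Mat m → VN m N → ℂ) (lam : ℕ → ℂ), HecA m N T F lam → Dcy F →
    ∑ x, ∫⁻ z in D, Tht (mt z) * ENNReal.ofReal ‖F (mt z) x‖ ∂(hm m) < ⊤

/-- the theta series, polynomial decay -/
def T_THG : Prop := ∀ m : ℕ, 1 ≤ m → ∃ N0 : ℕ, ∀ ρ : ℝ, 0 < ρ → ∃ C : ℝ, 0 < C ∧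
  ∀ g h : Mat m, 1 ≤ aN g → aN g < Real.exp 1 → 1 ≤ aN h → aN h < Real.exp 1 →
    ∑' β : ZM m, ENNReal.ofReal ((1 + sz (kk ρ g (cR β) h)) ^ (-(N0 : ℝ))) ≤
      ENNReal.ofReal C * Tht g * Tht h

/-- absolute convergence of the operator `A_r` -/
def T_ACA : Prop := ∀ (m N : ℕ) [NeZero N] (T : ℕ → Finset (ZM m)) (D : Set (V m)),
  SysZ m N T D → ∀ (F : Mat m → VN m N → ℂ) (lam : ℕ → ℂ), HecA m N T F lam →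
  ∀ Ψ : Mat m → ℂ, Dg m Ψ → Adm F Ψ →
  ∀ (g : Mat m) (r : ℝ) (x : VN m N), g.det ≠ 0 → 0 < r →
    ∫⁻ z in D, ∑' α : ZM m, ENNReal.ofReal ‖Ψ (kk r (mt z) (cR α) g) * F (mt z) (ac N α x)‖
      ∂(hm m) < ⊤

open Classical in
/-- the singular part vanishes on decaying cusp forms -/
def T_SGA : Prop := ∀ (m N : ℕ) [NeZero N] (T : ℕ → Finset (ZM m)) (D : Set (V m)),
  SysZ m N T D → ∀ (F : Mat m → VN m N → ℂ) (lam : ℕ → ℂ), CusB m N T F lam → Dcy F →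
  ∀ Ψ : Mat m → ℂ, Dg m Ψ →
  ∀ (g : Mat m) (r : ℝ) (x : VN m N), g.det ≠ 0 → 0 < r →
    ∫ z in D, ∑' α : ZM m, (if α.det = 0 then
      Ψ (kk r (mt z) (cR α) g) * F (mt z) (ac N α x) else 0) ∂(hm m) = 0

/-- cut-off functions -/
def T_CUA : Prop := ∀ m : ℕ, 1 ≤ m → ∃ c : ℕ → Mat m → ℝ, (∀ j z, 0 ≤ c j z ∧ c j z ≤ 1) ∧
  (∀ z : Mat m, z.det ≠ 0 → Filter.Tendsto (fun j => c j z) Filter.atTop (nhds 1)) ∧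
  ∀ Ψ : Mat m → ℂ, Dg m Ψ → ∀ j, Tg m (fun z => (c j z : ℂ) * Ψ z)

open Classical in
/-- the non singular part -/
def T_EGB : Prop := ∀ (m N : ℕ) [NeZero N] (T : ℕ → Finset (ZM m)) (D : Set (V m)),
  SysZ m N T D → ∀ (F : Mat m → VN m N → ℂ) (lam : ℕ → ℂ), HecA m N T F lam → NZ F →
  ∀ Ψ : Mat m → ℂ, Dg m Ψ →
  ∀ (g : Mat m) (r : ℝ) (x : VN m N), g.det ≠ 0 → 0 < r →
    ∫ z in D, ∑' α : ZM m, (if α.det = 0 then 0 else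
      Ψ (kk r (mt z) (cR α) g) * F (mt z) (ac N α x)) ∂(hm m) =
    thA m (fun r' => Rr Ψ r' F g x) lam r

/-- rapidly decreasing kernels on cusp forms -/
def T_EGA : Prop := ∀ (m N : ℕ) [NeZero N] (T : ℕ → Finset (ZM m)) (D : Set (V m)),
  SysZ m N T D → ∀ (F : Mat m → VN m N → ℂ) (lam : ℕ → ℂ), CusB m N T F lam → NZ F →
  ∀ Ψ : Mat m → ℂ, Dg m Ψ → Adm F Ψ →
  ∀ (g : Mat m) (r : ℝ) (x : VN m N), g.det ≠ 0 → 0 < r →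
    opAu N Ψ r D F g x = thA m (fun r' => Rr Ψ r' F g x) lam r

open Classical in
/-- the operators are adjoint, for a form and its Fourier transform -/
def T_ADB : Prop := ∀ (m N : ℕ) [NeZero N] (T : ℕ → Finset (ZM m)) (D : Set (V m)),
  SysZ m N T D → ∀ (H : VN m N → ZM m) (xv : VN m N → VN m N), Frk m N H xv →
  ∀ (F : Mat m → VN m N → ℂ) (lam : ℕ → ℂ), HecA m N T F lam →
  ∀ Ψ : Mat m → ℂ, Dg m Ψ → Adm F Ψ → ∀ ρ : ℝ, 0 < ρ →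
    ∫ g in D, ∫ h in D, ∑ v : VN m N, (if Pr v then (∑ y, psn N (dt v y) * F (mt h) y) *
      ∑' φ : ZM m, (starRingEnd ℂ) (Ψ (kk ρ (mt g) (cR φ) (cR (H v) * mt h))) *
        (starRingEnd ℂ) (F (mt g) (ac N φ (xv v))) else 0) ∂(hm m) ∂(hm m) =
    ∫ h in D, ∑ v : VN m N, (if Pr v then (∑ y, psn N (dt v y) * F (mt h) y) *
      (starRingEnd ℂ) (opAu N Ψ ρ D F (cR (H v) * mt h) (xv v)) else 0) ∂(hm m)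

/-- the Fourier transform of a test function decays -/
def T_FTB : Prop := ∀ (m : ℕ), 1 ≤ m → ∀ Φ : Mat m → ℂ, TgS m Φ → Dg m (cf Φ) ∧ Dg m (ft Φ)

open Classical in
/-- Poisson summation over a class modulo `q` -/
def T_POA : Prop := ∀ (m q : ℕ) [NeZero q], 1 ≤ m → 1 ≤ q → ∀ Φ : Mat m → ℂ, TgS m Φ →
    ∀ (g h : Mat m) (r : ℝ) (c : RM m q), g.det ≠ 0 → h.det ≠ 0 → 0 < r →
    (Summable fun β : ZM m => ‖ft Φ (kk ((q : ℝ) / r) g (cR β) h)‖) ∧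
    ∑' α : ZM m, (if cQ q α = c then Φ (kk r h (cR α) g) else 0) =
      ((r ^ (m ^ 2) / (q : ℝ) ^ (m ^ 2) : ℝ) : ℂ) *
        ∑' β : ZM m, psq q (cQ q β * c) * ft Φ (kk ((q : ℝ) / r) g (cR β) h)

open Classical in
/-- Poisson summation for vectors -/
def T_POV : Prop := ∀ (m N : ℕ) [NeZero N], 1 ≤ m → 1 ≤ N → ∀ Φ : Mat m → ℂ, TgS m Φ →
  ∀ (g h : Mat m) (r : ℝ) (x y : VN m N), g.det ≠ 0 → h.det ≠ 0 → 0 < r → Pr x →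
    ∑' α : ZM m, (if ac N α x = y then Φ (kk r h (cR α) g) else 0) =
      ((r ^ (m ^ 2) / (N : ℝ) ^ m : ℝ) : ℂ) *
        ∑ v : VN m N, psn N (dt v y) * ∑' β : ZM m,
          if cQ N β = Matrix.vecMulVec x v then ft Φ (kk ((N : ℝ) / r) g (cR β) h) else 0

open Classical in
/-- the pointwise identity -/
def T_ADR : Prop := ∀ (m N : ℕ) [NeZero N], 1 ≤ m → 1 ≤ N → ∀ Φ : Mat m → ℂ, TgS m Φ →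
  ∀ (H : VN m N → ZM m) (xv : VN m N → VN m N), Frk m N H xv →
  ∀ f f' : VN m N → ℂ, (∀ x, ¬ Pr x → f x = 0) → (∀ x, ¬ Pr x → f' x = 0) →
  (∀ v : VN m N, ¬ Pr v → ∑ y, psn N (dt v y) * f y = 0) →
  ∀ (g h : Mat m) (r : ℝ), g.det ≠ 0 → h.det ≠ 0 → 0 < r →
    ∑ x, (∑' α : ZM m, Φ (kk r h (cR α) g) * f (ac N α x)) * (starRingEnd ℂ) (f' x) =
      ((r ^ (m ^ 2) / (N : ℝ) ^ m : ℝ) : ℂ) * ∑ v : VN m N, if Pr v then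
        (∑ y, psn N (dt v y) * f y) *
          ∑' φ : ZM m, ft Φ (kk (kp m N / r) g (cR φ) (cR (H v) * h)) *
            (starRingEnd ℂ) (f' (ac N φ (xv v))) else 0

/-- the coefficient functions -/
def T_CFA : Prop := ∀ (m N : ℕ) [NeZero N] (T : ℕ → Finset (ZM m)) (D : Set (V m)),
  SysZ m N T D → ∀ (F : Mat m → VN m N → ℂ) (lam : ℕ → ℂ), HecA m N T F lam →
  Cof m (c1 D F) (nU D F)

def T_CFB : Prop := ∀ (m N : ℕ) [NeZero N] (T : ℕ → Finset (ZM m)) (D : Set (V m)),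
  SysZ m N T D → ∀ (H : VN m N → ZM m) (xv : VN m N → VN m N), Frk m N H xv →
  ∀ (F : Mat m → VN m N → ℂ) (lam : ℕ → ℂ), HecA m N T F lam →
  Cof m (c2 D H xv F) (nU D F)

/-- the infinitesimal character of the coefficient function -/
def T_CIF : Prop := ∀ (m N : ℕ) [NeZero N] (T : ℕ → Finset (ZM m)) (D : Set (V m)),
  SysZ m N T D → ∀ (F : Mat m → VN m N → ℂ) (lam : ℕ → ℂ) (mu : Fin m → ℂ),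
  CusA m N T F lam mu → Ifc m mu (c1 D F)

/-- the coefficient function near `1` -/
def T_CNR : Prop := ∀ m : ℕ, 1 ≤ m → ∃ C : ℝ, 1 ≤ C ∧
  ∀ (N : ℕ) [NeZero N] (T : ℕ → Finset (ZM m)) (D : Set (V m)), SysZ m N T D →
  ∀ (F : Mat m → VN m N → ℂ) (lam : ℕ → ℂ), HecA m N T F lam → nU D F = 1 →
  ∀ P : ℝ, Lip D F P → 0 ≤ P → ∀ w : Mat m, C * sz (w - 1) ≤ 1 →
    ‖c1 D F w - 1‖ ≤ C * P * sz (w - 1)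

/-- continuity of the coefficient function at `1` -/
def T_CCO : Prop := ∀ (m N : ℕ) [NeZero N] (T : ℕ → Finset (ZM m)) (D : Set (V m)),
  SysZ m N T D → ∀ (F : Mat m → VN m N → ℂ) (lam : ℕ → ℂ), HecA m N T F lam →
  ∀ η : ℝ, 0 < η → ∃ δ : ℝ, 0 < δ ∧ ∀ w : Mat m, sz (w - 1) ≤ δ → ‖c1 D F w - nU D F‖ ≤ η

/-- the scalar product with `F`, direct side -/
def T_PA1 : Prop := ∀ (m N : ℕ) [NeZero N] (T : ℕ → Finset (ZM m)) (D : Set (V m)),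
  SysZ m N T D → ∀ (F : Mat m → VN m N → ℂ) (lam : ℕ → ℂ), HecA m N T F lam →
  ∀ Φ : Mat m → ℂ, Tg m Φ → ∀ r : ℝ, 0 < r →
    ∑ x, ∫ g in D, opAu N Φ r D F (mt g) x * (starRingEnd ℂ) (F (mt g) x) ∂(hm m) =
      thA m (uu Φ (c1 D F)) lam r

/-- the scalar product with `F`, dual side -/
def T_PA2 : Prop := ∀ (m N : ℕ) [NeZero N] (T : ℕ → Finset (ZM m)) (D : Set (V m)),
  SysZ m N T D → ∀ (H : VN m N → ZM m) (xv : VN m N → VN m N), Frk m N H xv →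
  ∀ (F : Mat m → VN m N → ℂ) (lam : ℕ → ℂ), CusB m N T F lam → NZ F →
  ∀ Φ : Mat m → ℂ, TgS m Φ → Adm F (cf Φ) → ∀ r : ℝ, 0 < r →
    ∑ x, ∫ g in D, opAu N Φ r D F (mt g) x * (starRingEnd ℂ) (F (mt g) x) ∂(hm m) =
      ((r ^ (m ^ 2) * (N : ℝ) ^ (-((m : ℝ) / 2)) : ℝ) : ℂ) *
        (starRingEnd ℂ) (thA m (uu (cf Φ) (c2 D H xv F)) lam (kp m N / r))

/-- the functional equation -/
def T_FEA : Prop := ∀ (m N : ℕ) [NeZero N] (T : ℕ → Finset (ZM m)) (D : Set (V m)),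
  SysZ m N T D → ∀ (H : VN m N → ZM m) (xv : VN m N → VN m N), Frk m N H xv →
  ∀ (F : Mat m → VN m N → ℂ) (lam : ℕ → ℂ), CusB m N T F lam → NZ F →
  ∀ Φ : Mat m → ℂ, TgS m Φ → Adm F (cf Φ) → ∀ r : ℝ, 0 < r →
    ‖thA m (uu Φ (c1 D F)) lam r‖ = r ^ (m ^ 2) * kp m N ^ (-((m : ℝ) ^ 2 / 2)) *
      ‖thA m (uu (cf Φ) (c2 D H xv F)) lam (kp m N / r)‖

/-! ### group D: local analysis -/

/-- trivial bound for the local transforms -/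
def T_UBD : Prop := ∀ m : ℕ, 1 ≤ m → ∀ K : ℝ, (m : ℝ) ^ 2 ≤ K → ∃ (N : ℕ) (C : ℝ), 0 < C ∧
  ∀ (c Ψ : Mat m → ℂ) (M M' : ℝ), Cof m c M → 0 ≤ M → 0 ≤ M' →
  Continuous Ψ → (∀ z, ‖Ψ z‖ ≤ M' * (1 + sz z) ^ (-(N : ℝ))) → ∀ r : ℝ, 0 < r →
    IntegrableOn (fun z : V m => Ψ ((r⁻¹ * (aN (mt z))⁻¹) • mt z) * c (mt z)) (Shell m) (hm m) ∧
    ‖uu Ψ c r‖ ≤ C * M * M' * r ^ K

/-- derivative of the local transform -/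
def T_UDE : Prop := ∀ (m : ℕ), 1 ≤ m → ∀ (c : Mat m → ℂ) (M : ℝ),
  Cof m c M → ∀ f f1 : Mat m → ℂ, Dg m f → Dg m f1 →
  (∀ z, HasDerivAt (fun c : ℝ => f (c • z)) (f1 z) 1) →
  ∀ r : ℝ, 0 < r → HasDerivAt (uu f c) (-((r : ℂ)⁻¹ * uu f1 c r)) r

/-- the differential operators on test functions -/
def T_TEU : Prop := ∀ (m : ℕ), 1 ≤ m → ∀ Φ : Mat m → ℂ, TgS m Φ →
  TgS m (eu Φ) ∧ TgS m (eu2 Φ) ∧ TgS m (dD Φ) ∧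
  (∀ z, HasDerivAt (fun c : ℝ => Φ (c • z)) (eu Φ z) 1) ∧
  ((∀ z, Φ z ≠ 0 → 0 < z.det) → ∀ z, dD Φ z ≠ 0 → 0 < z.det) ∧
  ∀ R : ℝ, (∀ z, Φ z ≠ 0 → sz (z - 1) ≤ R) → ∀ z, (dD Φ z ≠ 0 ∨ eu Φ z ≠ 0) → sz (z - 1) ≤ R

/-- the derivatives of the bump functions -/
def T_BID : Prop := ∀ (m : ℕ) (χ : ℝ → ℝ) (l : ℕ), 1 ≤ m → Prof χ → ∃ (C : ℝ) (A : ℕ),
  0 < C ∧ ∀ δ : ℝ, 0 < δ → δ ≤ 1 / 2 → ∀ z : Mat m, ‖(dD^[l] (bi m χ δ)) z‖ ≤ C * δ⁻¹ ^ A ∧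
    ‖eu (dD^[l] (bi m χ δ)) z‖ ≤ C * δ⁻¹ ^ A

/-- the Fourier transform of the bump functions -/
def T_FTY : Prop := ∀ (m : ℕ) (χ : ℝ → ℝ) (N : ℕ), 1 ≤ m → Prof χ → ∃ (C : ℝ) (A : ℕ),
  0 < C ∧ ∀ δ : ℝ, 0 < δ → δ ≤ 1 / 2 → ∀ w : Mat m,
    ‖cf (bi m χ δ) w‖ ≤ C * δ⁻¹ ^ A * (1 + sz w) ^ (-(N : ℝ)) ∧
    ‖cf (eu (bi m χ δ)) w‖ ≤ C * δ⁻¹ ^ A * (1 + sz w) ^ (-(N : ℝ))

/-- Fourier transform, Euler operator and Cayley's operator -/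
def T_FDD : Prop := ∀ (m : ℕ), 1 ≤ m → ∀ Φ : Mat m → ℂ, TgS m Φ →
  (∀ w, cf (dD Φ) w = (starRingEnd ℂ) ((2 * Real.pi * Complex.I) ^ m) * (w.det : ℂ) * cf Φ w) ∧
  (∀ w, HasDerivAt (fun c : ℝ => cf Φ (c • w)) (cf (eu2 Φ) w) 1)

/-- the zeta integral and Cayley's operator -/
def T_ZAD : Prop := ∀ (m : ℕ), 1 ≤ m → ∀ (mu : Fin m → ℂ) (c : Mat m → ℂ) (M : ℝ),
  Cof m c M → Ifc m mu c → ∀ Φ : Mat m → ℂ, TgS m Φ → (∀ z, Φ z ≠ 0 → 0 < z.det) →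
  ∀ s : ℂ, ZA (dD Φ) c (s + 1) = (-1) ^ m * (∏ j, (s - mu j)) * ZA Φ c s ∧
    ‖ZA (dD^[m] Φ) c s‖ = (∏ i : Fin m, ∏ j, ‖s - ((i : ℕ) + 1) - mu j‖) * ‖ZA Φ c (s - m)‖

/-- lower bound of the zeta integral of the bump function -/
def T_ZLO : Prop := ∀ (m : ℕ) (χ : ℝ → ℝ), 1 ≤ m → Prof χ → ∃ (c0 c : ℝ) (A : ℕ), 0 < c0 ∧
  0 < c ∧ ∀ (f : Mat m → ℂ) (M b : ℝ), Cof m f M → 0 < b → ∀ (s : ℂ) (δ : ℝ), 0 < δ →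
  δ ≤ 1 / 2 → δ * (1 + ‖s‖) ≤ c0 →
  (∀ z : Mat m, sz (z - 1) ≤ δ → ‖f z - b‖ ≤ b / 4) →
    c * b * δ ^ A ≤ ‖ZA (bi m χ δ) f s‖

/-- Mellin transform in polar coordinates -/
def T_MLZ : Prop := ∀ (m : ℕ), 1 ≤ m → ∀ (c : Mat m → ℂ) (M : ℝ),
  Cof m c M → ∀ Φ : Mat m → ℂ, Tg m Φ → (∃ r0 : ℝ, 1 < r0 ∧ ∀ r : ℝ, 0 < r →
    uu Φ c r ≠ 0 → r0⁻¹ ≤ r ∧ r ≤ r0) ∧ ContinuousOn (uu Φ c) (Set.Ioi 0) ∧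
  ∀ s : ℂ, MelA m (uu Φ c) s = ZA Φ c s

/-- the adapted test function `det (∂) ^ m` of the bump function -/
def T_PHB : Prop := ∀ (χ : ℝ → ℝ), Prof χ → ∀ m : ℕ, 1 ≤ m → ∀ (ε : ℝ) (K : ℕ), 0 < ε →
  ∃ (C c : ℝ) (A : ℕ), 0 < C ∧ 0 < c ∧
  ∀ δ : ℝ, 0 < δ → δ ≤ 1 / 2 →
    TgS m (dD^[m] (bi m χ δ)) ∧ (∀ w : Mat m, w.det = 0 → cf (dD^[m] (bi m χ δ)) w = 0) ∧
    (∀ f : Mat m → ℂ, Cof m f 1 → WtB m (uu (dD^[m] (bi m χ δ)) f) (C * δ⁻¹ ^ A) ε K ∧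
      WtB m (uu (cf (dD^[m] (bi m χ δ))) f) (C * δ⁻¹ ^ A) ε K) ∧
    ∀ (f : Mat m → ℂ) (mu : Fin m → ℂ), Cof m f 1 → Ifc m mu f →
      (∀ z : Mat m, sz (z - 1) ≤ δ → ‖f z - 1‖ ≤ 1 / 4) →
      ∀ s : ℂ, δ * (1 + ‖s‖) ≤ c →
      c * δ ^ A * (∏ i : Fin m, ∏ j, ‖s - ((i : ℕ) + 1) - mu j‖) ≤
        ‖ZA (dD^[m] (bi m χ δ)) f s‖

/-! ### group E: one form -/

/-- summation by parts -/
def T_ABA : Prop := ∀ (m K : ℕ) (ψ : ℝ → ℂ) (lam : ℕ → ℂ)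
  (M ε C1 : ℝ), 1 ≤ m → m * (m + 2) < K → WtB m ψ M ε K →
  (∀ n : ℕ, 1 ≤ n →
    ‖(n : ℂ) ^ (((m : ℂ) - 1) / 2) * lam n‖ ≤ C1 * (n : ℝ) ^ m) → ∀ r : ℝ, 0 < r →
  ENNReal.ofReal ‖thA m ψ lam r‖ ≤ ∫⁻ y in Set.Ioi (1 : ℝ), ENNReal.ofReal
    (‖SF m 1 lam y‖ * ((m : ℝ)⁻¹ * y⁻¹ * (M * min ((r * y ^ (-(1 / (m : ℝ)))) ^ K)
      ((r * y ^ (-(1 / (m : ℝ)))) ^ ((m : ℝ) ^ 2 / 2 + ε)))))

/-- the half of the Mellin integral in terms of the partial sums -/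
def T_ABW : Prop := ∀ m : ℕ, 1 ≤ m → ∀ ε J : ℝ, 0 < ε → 0 ≤ J → ∃ (K : ℕ) (C : ℝ),
  (m : ℝ) ^ 2 / 2 + ε ≤ K ∧ m * (m + 2) < K ∧ 0 < C ∧
  ∀ (κ : ℝ) (ψ : ℝ → ℂ) (lam : ℕ → ℂ) (M C1 η : ℝ), 1 ≤ κ → 0 ≤ M → |η| ≤ ε / (2 * m) →
  WtB m ψ M ε K → (∀ n : ℕ, 1 ≤ n →
    ‖(n : ℂ) ^ (((m : ℂ) - 1) / 2) * lam n‖ ≤ C1 * (n : ℝ) ^ m) →
  ∫⁻ r in Set.Ioc (0 : ℝ) (Real.sqrt κ), ENNReal.ofReal
      (‖thA m ψ lam r‖ * r ^ (-((m : ℝ) ^ 2 / 2) - 1 + m * η)) ≤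
    ENNReal.ofReal (C * M * κ ^ ε) * ∫⁻ y in Set.Ioi (1 : ℝ), ENNReal.ofReal
      (‖SF m 1 lam y‖ * y ^ (-((m : ℝ) / 2) - 1) * wK m κ J y)

/-- the L-function is entire -/
def T_GLA : Prop := ∀ (m : ℕ) (lam : ℕ → ℂ), 1 ≤ m →
  (∃ C : ℝ, ∀ n : ℕ, 1 ≤ n →
      ‖(n : ℂ) ^ (((m : ℂ) - 1) / 2) * lam n‖ ≤ C * (n : ℝ) ^ m) →
  (∀ s : ℂ, ∃ ψ : ℝ → ℂ, Wc m ψ lam ∧ MelA m ψ s ≠ 0) →
  ∃ L : ℂ → ℂ, IsL m 1 lam L ∧ ∀ ψ : ℝ → ℂ, Wc m ψ lam →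
    ∀ s : ℂ, LmA m ψ lam s = L s * MelA m ψ s

/-- the two halves of the Mellin integral near the critical line -/
def T_SPB : Prop := ∀ (m : ℕ) (κ : ℝ) (lam : ℕ → ℂ) (ψ ψ' : ℝ → ℂ), 1 ≤ m → 1 ≤ κ →
  ContinuousOn (fun r => thA m ψ lam r) (Set.Ioi 0) →
  ContinuousOn (fun r => thA m ψ' lam r) (Set.Ioi 0) →
  (∀ r : ℝ, 0 < r → ‖thA m ψ lam r‖ = r ^ (m ^ 2) * κ ^ (-((m : ℝ) ^ 2 / 2)) *
    ‖thA m ψ' lam (κ / r)‖) → ∀ (s : ℂ) (η : ℝ), s.re = 1 / 2 + η →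
    ENNReal.ofReal ‖LmA m ψ lam s‖ ≤
      (∫⁻ r in Set.Ioc (0 : ℝ) (Real.sqrt κ), ENNReal.ofReal (‖thA m ψ lam r‖ *
        r ^ (-((m : ℝ) ^ 2 / 2) - 1 + m * (-η)))) +
      ENNReal.ofReal (κ ^ (-(m * η))) *
      ∫⁻ r in Set.Ioc (0 : ℝ) (Real.sqrt κ), ENNReal.ofReal (‖thA m ψ' lam r‖ *
        r ^ (-((m : ℝ) ^ 2 / 2) - 1 + m * η))

/-- the sums are continuous -/
def T_THK : Prop := ∀ (m K : ℕ) (ψ : ℝ → ℂ) (lam : ℕ → ℂ) (M ε : ℝ), 1 ≤ m →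
  m * (m + 2) < K → WtB m ψ M ε K → (∃ C : ℝ, ∀ n : ℕ, 1 ≤ n →
      ‖(n : ℂ) ^ (((m : ℂ) - 1) / 2) * lam n‖ ≤ C * (n : ℝ) ^ m) →
    ContinuousOn (fun r => thA m ψ lam r) (Set.Ioi 0)

/-- a circle avoiding the zeros -/
def T_CIR : Prop := ∀ (κ : Type) [Fintype κ] (ρ : κ → ℂ) (s0 : ℂ) (ε B : ℝ) (L : ℂ → ℂ),
  0 < ε → ε ≤ 1 → 0 ≤ B → Differentiable ℂ L →
  (∀ s : ℂ, ‖s - s0‖ ≤ ε → ‖L s‖ * ∏ k, ‖s - ρ k‖ ≤ B) →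
    ‖L s0‖ ≤ B * (4 * ((Fintype.card κ : ℝ) + 1) / ε) ^ Fintype.card κ

/-- decay of the sums for one form -/
def T_SMA : Prop := ∀ (m N : ℕ) [NeZero N] (T : ℕ → Finset (ZM m)) (D : Set (V m)),
  SysZ m N T D → ∀ (F : Mat m → VN m N → ℂ) (lam : ℕ → ℂ), CusB m N T F lam → NZ F →
  ∀ Φ : Mat m → ℂ, TgS m Φ → Adm F (cf Φ) → Wc m (uu Φ (c1 D F)) lam

/-- the L-function of a form is entire -/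
def T_ENA : Prop := ∀ (m N : ℕ) [NeZero N] (T : ℕ → Finset (ZM m)) (D : Set (V m)),
  SysZ m N T D → ∀ (F : Mat m → VN m N → ℂ) (lam : ℕ → ℂ), CusB m N T F lam → NZ F →
  ∃ L : ℂ → ℂ, IsL m 1 lam L ∧ ∀ ψ : ℝ → ℂ, Wc m ψ lam →
    ∀ s : ℂ, LmA m ψ lam s = L s * MelA m ψ s

/-- one value on the critical line -/
def T_SPX : Prop := ∀ m : ℕ, 1 ≤ m → ∀ ε J : ℝ, 0 < ε → 0 ≤ J → ∃ (C c : ℝ) (A : ℕ),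
  0 < C ∧ 0 < c ∧ ∀ (N : ℕ) [NeZero N] (T : ℕ → Finset (ZM m)) (D : Set (V m)), SysZ m N T D →
  ∀ (F : Mat m → VN m N → ℂ) (lam : ℕ → ℂ) (mu : Fin m → ℂ) (P : ℝ), CusA m N T F lam mu →
  nU D F = 1 → Lip D F P → ∀ L : ℂ → ℂ, Differentiable ℂ L →
  (∀ ψ : ℝ → ℂ, Wc m ψ lam → ∀ s : ℂ, LmA m ψ lam s = L s * MelA m ψ s) → ∀ t δ : ℝ,
  1 + |t| ≤ P → 0 < δ → δ ≤ 1 / 2 → δ * P ≤ c →
  ENNReal.ofReal ‖L (1 / 2 + t * Complex.I)‖ ≤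
    ENNReal.ofReal (C * δ⁻¹ ^ A * kp m N ^ ε) * ∫⁻ y in Set.Ioi (1 : ℝ), ENNReal.ofReal
      (‖DF m 1 lam y‖ * y ^ (-((m : ℝ) / 2) - 1) * wK m (kp m N) J y)

/-- the fourth moment over an orthonormal family of level `N`, arbitrary components at infinity -/
def T_MOA : Prop := ∀ m : ℕ, 1 ≤ m → ∀ ε : ℝ, 0 < ε → ∃ C A : ℝ, 0 < C ∧ 0 < A ∧
  ∀ (N : ℕ) [NeZero N] (T : ℕ → Finset (ZM m)) (D : Set (V m)), SysZ m N T D →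
  ∀ (ι : Type) [Fintype ι] [DecidableEq ι] (F : ι → Mat m → VN m N → ℂ) (lam : ι → ℕ → ℂ)
    (mu : ι → Fin m → ℂ) (P : ι → ℝ),
    (∀ i, CusA m N T (F i) (lam i) (mu i) ∧ Lip D (F i) (P i)) → Orthn D F →
    ∃ L : ι → ℂ → ℂ, (∀ i, IsL m 1 (lam i) (L i)) ∧ ∀ t : ι → ℝ,
      (∀ i, 1 + |t i| ≤ P i) →
      ∑ i, (‖L i (1 / 2 + t i * Complex.I)‖ * P i ^ (-A)) ^ 4 ≤ C * (N : ℝ) ^ ((m : ℝ) + ε)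

end Pool.Agent.H27.L1.H34.GA
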