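import Pool.Agent.H27.L1.H34.GU.Targets1
import Pool.Agent.H27.L1.H76.GU.Targets

/-!
Definitions of the board ga: the fourth moment over all cuspidal automorphic representations of
`GL_m`, with an arbitrary component at infinity (page H34_GA.md).
-/

namespace Pool.Agent.H27.L1.H34.GA

open MeasureTheory Pool.Agent.H27.L1.H34.GM Pool.Agent.H27.L1.H34.GZ Pool.Agent.H27.L1.H34.GU

/-! ### functions on the matrices -/

/-- continuous functions with compact support in `GL_m(R)` -/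
structure Tg (m : ℕ) (k : Mat m → ℂ) : Prop where
  cont : Continuous k
  supp : ∃ c : ℝ, 0 < c ∧ ∀ z, k z ≠ 0 → sz z ≤ c ∧ c⁻¹ ≤ |z.det|

/-- smooth functions with compact support in `GL_m(R)` -/
structure TgS (m : ℕ) (Φ : Mat m → ℂ) : Prop extends Tg m Φ where
  smooth : ContDiff ℝ ((⊤ : ℕ∞) : WithTop ℕ∞) (fun z : V m => Φ (mt z))

/-- rapidly decreasing continuous functions -/
structure Dg (m : ℕ) (Ψ : Mat m → ℂ) : Prop where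
  cont : Continuous Ψ
  dec : ∀ N : ℕ, ∃ C : ℝ, 0 ≤ C ∧ ∀ z, ‖Ψ z‖ ≤ C * (1 + sz z) ^ (-(N : ℝ))

/-- the unit vectors of the space of the matrices -/
def ev {m : ℕ} (i j : Fin m) : V m := fun a b => if a = i ∧ b = j then 1 else 0

/-- Cayley's differential operator `det (∂ / ∂ z_ij)` -/
noncomputable def dD {m : ℕ} (Φ : Mat m → ℂ) (z : Mat m) : ℂ :=
  ∑ σ : Equiv.Perm (Fin m), ((Equiv.Perm.sign σ : ℤ) : ℂ) *
    iteratedFDeriv ℝ m (fun w : V m => Φ (mt w)) (fun i j => z i j) (fun i => ev i (σ i))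

/-- Euler operator -/
noncomputable def eu {m : ℕ} (f : Mat m → ℂ) (z : Mat m) : ℂ := deriv (fun c : ℝ => f (c • z)) 1

/-- its dual -/
noncomputable def eu2 {m : ℕ} (f : Mat m → ℂ) (z : Mat m) : ℂ := -((m : ℂ) ^ 2 * f z + eu f z)

/-- `conj (ft f w)` -/
noncomputable def cf {m : ℕ} (f : Mat m → ℂ) (w : Mat m) : ℂ := (starRingEnd ℂ) (ft f w)

/-- bump functions near the unit matrix -/
noncomputable def bi (m : ℕ) (χ : ℝ → ℝ) (δ : ℝ) (z : Mat m) : ℂ :=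
  (χ ((∑ i, ∑ j, ((z - 1) i j) ^ 2) / δ ^ 2) : ℝ)

/-! ### forms -/

/-- functions on `GL_m(Z) \ (GL_m(R) × primitive vectors mod N)` which are eigenfunctions of all the
Hecke operators; no condition at infinity except the invariance under the positive scalars -/
structure HecA (m N : ℕ) [NeZero N] (T : ℕ → Finset (ZM m)) (F : Mat m → VN m N → ℂ)
    (lam : ℕ → ℂ) : Prop where
  cont : ∀ x, ContinuousOn (fun g => F g x) {g | g.det ≠ 0}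
  supp : ∀ g x, ¬ Pr x → F g x = 0
  auto : ∀ γ : ZM m, IsUnit γ → ∀ g x, g.det ≠ 0 → F (cR γ * g) (ac N γ x) = F g x
  scal : ∀ r : ℝ, 0 < r → ∀ g x, g.det ≠ 0 → F (r • g) x = F g x
  hecke : ∀ n : ℕ, 1 ≤ n → ∀ g x, g.det ≠ 0 →
    ∑ α ∈ T n, F (cR α * g) (ac N α x) = (n : ℂ) ^ (((m : ℂ) - 1) / 2) * lam n * F g x
  bdd : ∃ B : ℝ, ∀ g x, g.det ≠ 0 → ‖F g x‖ ≤ B

/-- cusp forms, primitive at `N` -/
structure CusB (m N : ℕ) [NeZero N] (T : ℕ → Finset (ZM m)) (F : Mat m → VN m N → ℂ)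
    (lam : ℕ → ℂ) : Prop extends HecA m N T F lam where
  prim : ∀ v : VN m N, ¬ Pr v → ∀ g, g.det ≠ 0 → ∑ y, psn N (dt v y) * F g y = 0
  cusp : ∀ k : ℕ, 0 < k → k < m → ∀ g x, g.det ≠ 0 →
    ∫ u in Set.Icc (0 : V m) 1, F ((1 + (N : ℝ) • nk k u) * g) x = 0

/-- cusp forms with the infinitesimal character `mu` (Capelli's operator `det z · det ∂` and its
twists by the powers of `|det z|`, in the weak sense) -/
structure CusA (m N : ℕ) [NeZero N] (T : ℕ → Finset (ZM m)) (F : Mat m → VN m N → ℂ)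
    (lam : ℕ → ℂ) (mu : Fin m → ℂ) : Prop extends CusB m N T F lam where
  inf : ∀ Φ : Mat m → ℂ, TgS m Φ → ∀ (s : ℂ) (g : Mat m) (x : VN m N), g.det ≠ 0 →
    ∫ z : V m, dD Φ (mt z) * (((mt z).det : ℝ) : ℂ) *
      ((|(mt z).det| : ℝ) : ℂ) ^ (s + ((m : ℂ) - 1) / 2) * F (g * (mt z)⁻¹) x ∂(hm m) =
    (-1) ^ m * (∏ j, (s - mu j)) * ∫ z : V m, Φ (mt z) *
      ((|(mt z).det| : ℝ) : ℂ) ^ (s + ((m : ℂ) - 1) / 2) * F (g * (mt z)⁻¹) x ∂(hm m)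

/-- decay in the cusps -/
def Dcy {m N : ℕ} (F : Mat m → VN m N → ℂ) : Prop :=
  ∃ B : ℝ, ∀ (b n : Mat m) (a : Fin m → ℝ) (k : Mat m), Sgl b n a k →
    ∀ i j : Fin m, (i : ℕ) + 1 = j → ∀ x, ‖F b x‖ ≤ B * (a i / a j)

/-- the singular matrices do no harm -/
def Adm {m N : ℕ} (F : Mat m → VN m N → ℂ) (Ψ : Mat m → ℂ) : Prop :=
  Dcy F ∨ ∀ w : Mat m, w.det = 0 → Ψ w = 0

/-- `P` is a Lipschitz constant of `F` in `L²`, for the right translations near `1` -/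
def Lip {m N : ℕ} [NeZero N] (D : Set (V m)) (F : Mat m → VN m N → ℂ) (P : ℝ) : Prop :=
  ∀ w : Mat m, 2 * m * sz (w - 1) ≤ 1 →
    ∑ x, ∫ (z : V m) in D, ‖F ((mt z : Mat m) * w) x - F (mt z) x‖ ^ 2 ∂(hm m) ≤ (P * sz (w - 1)) ^ 2

/-! ### operators -/

/-- convolution at infinity, at the determinant `r ^ (-m)` -/
noncomputable def Rr {m N : ℕ} (Ψ : Mat m → ℂ) (r : ℝ) (F : Mat m → VN m N → ℂ) (g : Mat m)
    (x : VN m N) : ℂ :=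
  ∫ z in Shell m, Ψ ((r⁻¹ * (aN (mt z))⁻¹) • mt z) * F (g * (mt z)⁻¹) x ∂(hm m)

/-- the mass of `Ψ` at the determinant `r ^ (-m)` -/
noncomputable def L1 {m : ℕ} (Ψ : Mat m → ℂ) (r : ℝ) : ENNReal :=
  ∫⁻ z in Shell m, ENNReal.ofReal ‖Ψ ((r⁻¹ * (aN (mt z))⁻¹) • mt z)‖ ∂(hm m)

/-- the local transform with the coefficient function `c` in place of the power function -/
noncomputable def uu {m : ℕ} (Ψ : Mat m → ℂ) (c : Mat m → ℂ) (r : ℝ) : ℂ :=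
  ∫ z in Shell m, Ψ ((r⁻¹ * (aN (mt z))⁻¹) • mt z) * c (mt z) ∂(hm m)

/-- the mass of the bump function -/
noncomputable def tb (m : ℕ) (χ : ℝ → ℝ) (δ : ℝ) : ℝ := ‖uu (bi m χ δ) (fun _ => 1) 1‖

/-- bounded coefficient functions -/
structure Cof (m : ℕ) (c : Mat m → ℂ) (M : ℝ) : Prop where
  meas : AEStronglyMeasurable (fun z : V m => c (mt z)) (hm m)
  scal : ∀ r : ℝ, 0 < r → ∀ z : Mat m, z.det ≠ 0 → c (r • z) = c z
  bd : ∀ z : Mat m, z.det ≠ 0 → ‖c z‖ ≤ M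

/-- the infinitesimal character of a coefficient function -/
def Ifc (m : ℕ) (mu : Fin m → ℂ) (c : Mat m → ℂ) : Prop := ∀ Φ : Mat m → ℂ, TgS m Φ → ∀ s : ℂ,
    ∫ z : V m, dD Φ (mt z) * (((mt z).det : ℝ) : ℂ) *
      ((|(mt z).det| : ℝ) : ℂ) ^ (s + ((m : ℂ) - 1) / 2) * c (mt z) ∂(hm m) =
    (-1) ^ m * (∏ j, (s - mu j)) * ∫ z : V m, Φ (mt z) *
      ((|(mt z).det| : ℝ) : ℂ) ^ (s + ((m : ℂ) - 1) / 2) * c (mt z) ∂(hm m)

/-- the matrix coefficient of `F` -/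
noncomputable def c1 {m N : ℕ} [NeZero N] (D : Set (V m)) (F : Mat m → VN m N → ℂ) (w : Mat m) :
    ℂ :=
  ∑ x, ∫ (z : V m) in D, F ((mt z : Mat m) * w⁻¹) x * (starRingEnd ℂ) (F (mt z) x) ∂(hm m)

open Classical in
/-- the coefficient on the dual side -/
noncomputable def c2 {m N : ℕ} [NeZero N] (D : Set (V m)) (H : VN m N → ZM m)
    (xv : VN m N → VN m N) (F : Mat m → VN m N → ℂ) (w : Mat m) : ℂ :=
  (((N : ℝ) ^ (-((m : ℝ) / 2)) : ℝ) : ℂ) * ∑ v : VN m N, if Pr v then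
    ∫ (z : V m) in D, (starRingEnd ℂ) (∑ y, psn N (dt v y) * F (mt z) y) *
      F (cR (H v) * mt z * w⁻¹) (xv v) ∂(hm m) else 0

/-! ### sums over the eigenvalues and Mellin transforms -/

/-- the sum with the weight function `ψ` -/
noncomputable def thA (m : ℕ) (ψ : ℝ → ℂ) (lam : ℕ → ℂ) (r : ℝ) : ℂ :=
  ∑' n : ℕ, if 1 ≤ n then
    (n : ℂ) ^ (((m : ℂ) - 1) / 2) * lam n * ψ (r * (n : ℝ) ^ (-(1 / (m : ℝ)))) else 0

/-- Mellin transform of the weight -/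
noncomputable def MelA (m : ℕ) (ψ : ℝ → ℂ) (s : ℂ) : ℂ :=
  ∫ r in Set.Ioi (0 : ℝ), ψ r * ((r : ℝ) : ℂ) ^ (-((m : ℂ) * (s + ((m : ℂ) - 1) / 2)) - 1)

/-- Mellin transform of the sum -/
noncomputable def LmA (m : ℕ) (ψ : ℝ → ℂ) (lam : ℕ → ℂ) (s : ℂ) : ℂ :=
  ∫ r in Set.Ioi (0 : ℝ), thA m ψ lam r *
    ((r : ℝ) : ℂ) ^ (-((m : ℂ) * (s + ((m : ℂ) - 1) / 2)) - 1)

/-- the local zeta integral with the coefficient function `c` -/
noncomputable def ZA {m : ℕ} (Φ : Mat m → ℂ) (c : Mat m → ℂ) (s : ℂ) : ℂ :=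
  ∫ z : V m, Φ (mt z) * ((|(mt z).det| : ℝ) : ℂ) ^ (s + ((m : ℂ) - 1) / 2) * c (mt z) ∂(hm m)

/-- uniform bounds for a weight function -/
structure WtB (m : ℕ) (ψ : ℝ → ℂ) (M ε : ℝ) (K : ℕ) : Prop where
  diff : DifferentiableOn ℝ ψ (Set.Ioi 0)
  bd0 : ∀ r : ℝ, 0 < r → ‖ψ r‖ ≤ M * min (r ^ K) (r ^ ((m : ℝ) ^ 2 / 2 + ε))
  bd1 : ∀ r : ℝ, 0 < r → r * ‖deriv ψ r‖ ≤ M * min (r ^ K) (r ^ ((m : ℝ) ^ 2 / 2 + ε))

/-- weight functions with compact support in `(0, ∞)` and rapidly decreasing sum -/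
structure Wc (m : ℕ) (ψ : ℝ → ℂ) (lam : ℕ → ℂ) : Prop where
  cont : ContinuousOn ψ (Set.Ioi 0)
  supp : ∃ r0 : ℝ, 1 < r0 ∧ ∀ r : ℝ, 0 < r → ψ r ≠ 0 → r0⁻¹ ≤ r ∧ r ≤ r0
  dec : ∀ N : ℕ, ∃ C : ℝ, ∀ r : ℝ, 1 ≤ r → ‖thA m ψ lam r‖ ≤ C * r ^ (-(N : ℝ))

end Pool.Agent.H27.L1.H34.GA
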